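import Pool.Agent.H728.Easy
import Pool.Agent.H612.PatOf

/-!
# The complexity of geometric embeddings of simplicial complexes

For all `d ≥ 4` and all `k` with `d / 2 ≤ k ≤ d` it is `∃ℝ`-complete to decide whether a given
complex of dimension `k` has a geometric embedding in `ℝ^d`. For `k > d` and for `d > 2 k` the
problem is in `P`.

The proof of hardness reduces from the realizability of strict sign matrices (`SR 5`, `SRN 4`) to
two-dimensional complexes in `ℝ^4`. A row is a vertex. A column is a gadget on sixteen vertices: the
boundary of a tetrahedron is linked with the edges of a complex on two matched sets of five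
vertices, and the parity of the van Kampen obstruction on seven vertices forces the two ends of one
edge to be on different sides of the hyperplane spanned by the tetrahedron; two triangles at every
row vertex then force the side of the row. From there the dimension is raised by joins with many
points, of which two are in the same cell of the arrangement of the hyperplanes spanned by pairs of
simplices, and by one suspension if `d` is odd.
-/

namespace Pool.Agent.Results.MP_2b4a47_lc.GeomEmbedding

open Pool.Agent.NPC Pool.Agent.NPC.ER Pool.Agent.NPC.ER.Pat Pool.Agent.H728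

theorem isPatOf : IsPatOf Sgn.patOf where
  poly := Sgn.poly_patOf Poly.id
  wf := Sgn.patOf_wf
  sound := fun _ h => Sgn.patOf_sound h
  complete := fun _ h => Sgn.patOf_complete h

/-- `EMB(k, d)` is `∃ℝ`-complete whenever `d ≥ 4` and `d / 2 ≤ k ≤ d`, and it is in `P` whenever
`k > d` or `d > 2 k`. -/
theorem result :
    (∀ k d : ℕ, 4 ≤ d → k ≤ d → d ≤ 2 * k → ERComplete (EMB k d)) ∧
      ∀ k d : ℕ, (d < k ∨ 2 * k < d) → InP (EMB k d) :=
  ⟨fun k d hd hkd hdk =>
    ⟨Pool.Agent.NPC.ER.H728.emb_mem k d, Pool.Agent.NPC.ER.H728.hard_of isPatOf hd hkd hdk⟩,
    fun _ _ h => Pool.Agent.NPC.ER.H728.emb_inP h⟩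

end Pool.Agent.Results.MP_2b4a47_lc.GeomEmbedding
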